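import Pool.Agent.Zk50.SE.Ring

/-!
# Algebraic elements of rings, diagonal elements
-/

set_option autoImplicit false

open Polynomial

namespace Pool.Agent.Zk50.SE

open Pool.Agent.Zk50.SD (AntiInv)

variable {A : Type*} [Ring A] [Algebra ℚ A] {s : A →+ A}

/-- The powers of an algebraic element. -/
theorem alg_stat {a : A} (h : IsAlgebraic ℚ a) : ∃ (N : ℕ) (x : A), a ^ N = a ^ (N + 1) * x ∧
    a ^ N = x * a ^ (N + 1) := by
  obtain ⟨P, hP0, hP⟩ := h
  obtain ⟨Q, hQ, hQ0⟩ := exists_eq_pow_rootMultiplicity_mul_and_not_dvd P hP0 0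
  obtain ⟨n, hn⟩ : ∃ n, n = rootMultiplicity 0 P := ⟨_, rfl⟩
  rw [← hn, C_0, sub_zero] at hQ
  rw [C_0, sub_zero, X_dvd_iff] at hQ0
  have h1 : Q = Q.divX * X + C (Q.coeff 0) := (divX_mul_X_add Q).symm
  obtain ⟨c, hc⟩ : ∃ c, c = Q.coeff 0 := ⟨_, rfl⟩
  rw [← hc] at h1 hQ0
  obtain ⟨r, hr⟩ : ∃ r : ℚ[X], r = C (-c⁻¹) * Q.divX := ⟨_, rfl⟩
  have h2 : X ^ n = X ^ (n + 1) * r + C c⁻¹ * P := by
    have e0 : (C c⁻¹ : ℚ[X]) * C c = 1 := by rw [← C_mul, inv_mul_cancel₀ hQ0, C_1]
    have e1 : C c⁻¹ * P = X ^ n * (C c⁻¹ * Q.divX * X) + X ^ n * (C c⁻¹ * C c) := by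
      rw [hQ]
      conv_lhs => rw [h1]
      ring
    rw [e1, e0, hr, C_neg]
    ring
  have h3 := congrArg (aeval a) h2
  rw [map_add, map_mul (aeval a) (C c⁻¹), hP, mul_zero, add_zero, map_mul, map_pow, map_pow,
    aeval_X] at h3
  refine ⟨n, aeval a r, h3, ?_⟩
  rw [h3]
  have h4 : a ^ (n + 1) = aeval a (X ^ (n + 1) : ℚ[X]) := by rw [map_pow, aeval_X]
  rw [h4, ← map_mul, ← map_mul, mul_comm]

/-- The elements generated by two commuting algebraic elements are algebraic. -/
theorem alg_of_comm {g h : A} (hgh : g * h = h * g) (hg : IsAlgebraic ℚ g)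
    (hh : IsAlgebraic ℚ h) : ∀ z ∈ Algebra.adjoin ℚ ({g, h} : Set A), IsAlgebraic ℚ z := by
  let hcr : CommRing (Algebra.adjoin ℚ ({g, h} : Set A)) := Algebra.adjoinCommRingOfComm ℚ (by
    rintro a (rfl | rfl) b (rfl | rfl)
    · rfl
    · exact hgh
    · exact hgh.symm
    · rfl)
  have key : ∀ (z : A) (hz : z ∈ Algebra.adjoin ℚ ({g, h} : Set A)),
      IsIntegral ℚ (⟨z, hz⟩ : Algebra.adjoin ℚ ({g, h} : Set A)) := by
    intro z hz
    induction hz using Algebra.adjoin_induction with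
    | mem x hx =>
      refine (isIntegral_algHom_iff (Algebra.adjoin ℚ ({g, h} : Set A)).val
        Subtype.val_injective).1 ?_
      rcases hx with rfl | rfl
      · exact hg.isIntegral
      · exact hh.isIntegral
    | algebraMap r => exact isIntegral_algebraMap (R := ℚ) (x := r)
    | add x y hx hy ihx ihy => exact ihx.add ihy
    | mul x y hx hy ihx ihy => exact ihx.mul ihy
  intro z hz
  have h1 := (key z hz).map (Algebra.adjoin ℚ ({g, h} : Set A)).val
  exact h1.isAlgebraic

/-- One-sided inverses of algebraic elements are inverses. -/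
theorem alg_inv {a b : A} (h : IsAlgebraic ℚ a) (hab : a * b = 1) : b * a = 1 := by
  obtain ⟨N, x, -, h2⟩ := alg_stat h
  have h3 : ∀ n : ℕ, a ^ n * b ^ n = 1 := by
    intro n
    induction n with
    | zero => simp
    | succ n ih =>
      rw [pow_succ, pow_succ' b, mul_assoc, ← mul_assoc a b, hab, one_mul, ih]
  have h4 : x * a = 1 := by
    have := congrArg (fun z => z * b ^ N) h2
    rw [h3, mul_assoc, pow_succ', mul_assoc a, h3, mul_one] at this
    exact this.symm
  have h5 : x = b := by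
    calc x = x * (a * b) := by rw [hab, mul_one]
      _ = b := by rw [← mul_assoc, h4, one_mul]
  rw [← h5, h4]

section diag

variable {n : ℕ} {π : ℕ → A}

lemma idem_mul_sum (hid : ∀ i, π i * π i = π i) (horth : ∀ i j, i ≠ j → π i * π j = 0)
    (a b : ℕ → ℚ) : (∑ i ∈ Finset.range n, a i • π i) * (∑ i ∈ Finset.range n, b i • π i) =
      ∑ i ∈ Finset.range n, (a i * b i) • π i := by
  rw [Finset.sum_mul]
  refine Finset.sum_congr rfl fun i hi => ?_
  rw [Finset.mul_sum, Finset.sum_eq_single i]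
  · rw [smul_mul_smul_comm, hid]
  · intro j _ hj
    rw [smul_mul_smul_comm, horth i j (Ne.symm hj), smul_zero]
  · intro h
    exact absurd hi h

/-- Polynomials in a diagonal element. -/
lemma aeval_diag (hid : ∀ i, π i * π i = π i) (horth : ∀ i j, i ≠ j → π i * π j = 0)
    (hsum : ∑ i ∈ Finset.range n, π i = 1) (c : ℕ → ℚ) (q : ℚ[X]) :
    aeval (∑ i ∈ Finset.range n, c i • π i) q = ∑ i ∈ Finset.range n, q.eval (c i) • π i := by
  have hpow : ∀ k : ℕ, (∑ i ∈ Finset.range n, c i • π i) ^ k =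
      ∑ i ∈ Finset.range n, (c i ^ k) • π i := by
    intro k
    induction k with
    | zero => simp [hsum]
    | succ k ih => simp only [pow_succ, ih, idem_mul_sum hid horth]
  induction q using Polynomial.induction_on' with
  | add p q hp hq =>
    rw [map_add, hp, hq, ← Finset.sum_add_distrib]
    refine Finset.sum_congr rfl fun i _ => ?_
    rw [eval_add, add_smul]
  | monomial k b =>
    rw [aeval_monomial, hpow, Algebra.algebraMap_eq_smul_one, smul_mul_assoc, one_mul,
      Finset.smul_sum]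
    refine Finset.sum_congr rfl fun i _ => ?_
    rw [eval_monomial, mul_smul]

end diag

end Pool.Agent.Zk50.SE
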