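import Pool.Agent.Y107.SDDefs

/-!
# Polynomials in correspondences, their spectra on the cohomology: definitions
-/

open CategoryTheory AlgebraicGeometry

set_option autoImplicit false

universe u v w

namespace Pool.Agent.Zk50.SE

open Pool.Agent.H914 Pool.Agent.H914.VarClass Pool.Agent.H914.VarClass.Obj Pool.Agent.W492.BB
  Pool.Agent.W550.Corr Pool.Agent.TH133 Pool.Agent.Y107

variable {k : Type u} [Field k] {𝒱 : VarClass k}

section chow

variable (C : TheoryData.{u, v, 0} 𝒱 ℚ) {X : 𝒱.Obj}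

/-- The value `P(γ)` of the polynomial `P` at the self-correspondence `γ` of `X`, with respect to
composition. -/
noncomputable def val (P : Polynomial ℚ) (γ : C.A (X.prod X)) : C.A (X.prod X) :=
  P.sum fun n c => c • corPow C γ n

/-- The self-correspondence `γ` is algebraic over `ℚ`: `P(γ) = 0` for some polynomial `P ≠ 0`. -/
def Algebraic (γ : C.A (X.prod X)) : Prop := ∃ P : Polynomial ℚ, P ≠ 0 ∧ val C P γ = 0

/-- The chain of right ideals `γ^n ∘ R`, `R = CH^(dim X)(X × X)`, is stationary: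
`γ^n = γ^(n+1) ∘ δ` for some `n` and some `δ ∈ R`. -/
def StationaryRight (γ : C.A (X.prod X)) : Prop :=
  ∃ (n : ℕ) (δ : C.A (X.prod X)), C.Deg X.dim δ ∧ corPow C γ n = C.comp δ (corPow C γ (n + 1))

/-- The chain of left ideals `R ∘ γ^n`, `R = CH^(dim X)(X × X)`, is stationary:
`γ^n = δ ∘ γ^(n+1)` for some `n` and some `δ ∈ R`. -/
def StationaryLeft (γ : C.A (X.prod X)) : Prop :=
  ∃ (n : ℕ) (δ : C.A (X.prod X)), C.Deg X.dim δ ∧ corPow C γ n = C.comp (corPow C γ (n + 1)) δ

end chow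

section weil

variable {C : TheoryData.{u, v, 0} 𝒱 ℚ} {K : Type w} [Field K] (H : WeilTheoryData.{u, v, w} C K)
  {X : 𝒱.Obj}

/-- `γ` acts on the cohomology of `X` as the projection onto `H^i(X)`. -/
def IsLift (i : ℕ) (γ : C.A (X.prod X)) : Prop :=
  ∀ (m : ℤ) (a : H.A X), H.Deg m a → H.act (H.cl γ) a = if m = i then a else 0

/-- `κ ∈ CH^d(X × X)`, `d = dim X`, acts as the grading operator: on `H^i(X)` as the multiplication
by `i - d`, for all `i`. -/
def IsGrading (κ : C.A (X.prod X)) : Prop :=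
  C.Deg X.dim κ ∧ ∀ (i : ℤ) (a : H.A X), H.Deg i a → H.act (H.cl κ) a = (i - X.dim : ℤ) • a

/-- `γ` has disjoint spectra on the groups `H^i(X)`: for `0 ≤ i ≤ 2 dim X` the operator `γ` on
`H^i(X)` is a zero of a rational polynomial `P i`, and these polynomials are pairwise coprime. -/
def DisjointSpectra (γ : C.A (X.prod X)) : Prop :=
  ∃ P : ℕ → Polynomial ℚ,
    (∀ i ≤ 2 * X.dim, ∀ a : H.A X, H.Deg i a → H.act (H.cl (val C (P i) γ)) a = 0) ∧
      ∀ i ≤ 2 * X.dim, ∀ j ≤ 2 * X.dim, i ≠ j → IsCoprime (P i) (P j)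

/-- `S` is a subring of the ring `CH^(dim X)(X × X)` (with the same unit and closed under
multiplication by rational numbers), stable under transposition, whose homologically trivial
elements are algebraic over `ℚ`; for example a finite-dimensional one. -/
structure NearlyAlgebraicRing (S : Set (C.A (X.prod X))) : Prop where
  deg : ∀ a ∈ S, C.Deg X.dim a
  one : dg C X ∈ S
  add : ∀ a ∈ S, ∀ b ∈ S, a + b ∈ S
  smul : ∀ (q : ℚ), ∀ a ∈ S, q • a ∈ S
  comp : ∀ a ∈ S, ∀ b ∈ S, C.comp a b ∈ S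
  transpose : ∀ a ∈ S, tp C a ∈ S
  algebraic : ∀ a ∈ S, H.cl a = 0 → Algebraic C a

end weil

end Pool.Agent.Zk50.SE
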