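import Pool.Agent.Zk50.SE.Main

/-!
# Self-dual Chow-Kunneth decompositions from a single correspondence: the implications
-/

open CategoryTheory AlgebraicGeometry Polynomial

set_option autoImplicit false
set_option linter.unusedSectionVars false

universe u v w

namespace Pool.Agent.Zk50.SE

open Pool.Agent.H914 Pool.Agent.H914.VarClass Pool.Agent.H914.VarClass.Obj Pool.Agent.W492.BB
  Pool.Agent.W550.Corr Pool.Agent.TH133 Pool.Agent.Y107 Pool.Agent.Zk50.SD

variable {k : Type u} [Field k] {𝒱 : VarClass k} {C : TheoryData.{u, v, 0} 𝒱 ℚ}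
  [hC : IsChowProj C] {K : Type w} [Field K] {H : WeilTheoryData.{u, v, w} C K}
  [hH : IsWeilProj H] {X : 𝒱.Obj}

include hC hH

/-- The polynomial `f(κ)` of a lift of the grading operator is homologically trivial. -/
lemma act_gp {κ : cor0 C X}
    (hκ : ∀ (m : ℤ) (a : H.A X), a ∈ H.gr X m → act0 C H X κ a = (m - X.dim : ℤ) • a) :
    act0 C H X (aeval κ (gp X.dim)) = 0 := by
  apply ext_gr H
  intro m a ha
  rw [LinearMap.zero_apply]
  by_cases hm : m < 0 ∨ 2 * (X.dim : ℤ) < m
  · rw [eq_zero_of_deg (H := H) ha hm, map_zero]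
  push Not at hm
  obtain ⟨j, rfl⟩ : ∃ j : ℕ, m = j := ⟨m.toNat, by omega⟩
  have hj : j ≤ 2 * X.dim := by omega
  rw [act_poly (hκ j a ha) (gp X.dim) 0, zero_smul]
  rw [← sh_cast, gp_eval hj, Int.cast_zero]

/-- The operator `∑ (i - d) (p i - ᵗ(p i))`. -/
theorem grading_of_lifts {p : ℕ → cor0 C X}
    (hp : ∀ i < X.dim, ∀ (m : ℤ) (a : H.A X), a ∈ H.gr X m →
      act0 C H X (p i) a = if m = i then a else 0) :
    (∀ (m : ℤ) (a : H.A X), a ∈ H.gr X m → act0 C H X (∑ i ∈ Finset.range X.dim,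
      ((i : ℤ) - X.dim) • (p i - tr0 C X (p i))) a = (m - X.dim : ℤ) • a) ∧
    tr0 C X (∑ i ∈ Finset.range X.dim, ((i : ℤ) - X.dim) • (p i - tr0 C X (p i))) =
      -∑ i ∈ Finset.range X.dim, ((i : ℤ) - X.dim) • (p i - tr0 C X (p i)) := by
  constructor
  · intro m a ha
    have h1 : ∀ i < X.dim, act0 C H X (tr0 C X (p i)) a =
        if m = (2 * X.dim - i : ℕ) then a else 0 := by
      intro i hi
      exact act_tp_of_act (H := H) (X := X) (σ := ((p i : cor0 C X) : Cor C X)) (i := i)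
        (by omega) (fun m x hx => hp i hi m x hx) m a ha
    have h2 : act0 C H X (∑ i ∈ Finset.range X.dim,
        ((i : ℤ) - X.dim) • (p i - tr0 C X (p i))) a =
        ∑ i ∈ Finset.range X.dim, ((i : ℤ) - X.dim) • ((if m = i then a else 0) -
          if m = (2 * X.dim - i : ℕ) then a else 0) := by
      rw [map_sum, LinearMap.sum_apply]
      refine Finset.sum_congr rfl fun i hi => ?_
      have hi' := Finset.mem_range.1 hi
      rw [map_zsmul, LinearMap.smul_apply, map_sub, LinearMap.sub_apply, hp i hi' m a ha, h1 i hi']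
    rw [h2]
    by_cases hm : m < 0 ∨ 2 * (X.dim : ℤ) < m
    · rw [eq_zero_of_deg (H := H) ha hm]
      simp
    push Not at hm
    obtain ⟨j, rfl⟩ : ∃ j : ℕ, m = j := ⟨m.toNat, by omega⟩
    rcases lt_trichotomy j X.dim with hj | hj | hj
    · rw [Finset.sum_eq_single j, if_pos rfl, if_neg (by omega), sub_zero]
      · intro i hi hij
        have := Finset.mem_range.1 hi
        rw [if_neg (by omega), if_neg (by omega), sub_self, smul_zero]
      · intro h
        exact absurd (Finset.mem_range.2 hj) h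
    · rw [Finset.sum_eq_zero]
      · rw [hj, sub_self, zero_smul]
      · intro i hi
        have := Finset.mem_range.1 hi
        rw [if_neg (by omega), if_neg (by omega), sub_self, smul_zero]
    · rw [Finset.sum_eq_single (2 * X.dim - j), if_neg (by omega), if_pos (by omega), zero_sub,
        smul_neg, ← neg_smul]
      · congr 1
        omega
      · intro i hi hij
        have := Finset.mem_range.1 hi
        rw [if_neg (by omega), if_neg (by omega), sub_self, smul_zero]
      · intro h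
        exact absurd (Finset.mem_range.2 (by omega)) h
  · rw [map_sum, ← Finset.sum_neg_distrib]
    refine Finset.sum_congr rfl fun i _ => ?_
    rw [map_zsmul, map_sub, (tr0_antiInv C X).inv, ← smul_neg, neg_sub]

/-- From a nearly algebraic ring to an antisymmetric lift of the grading operator. -/
theorem of_ring {T : Subalgebra ℚ (cor0 C X)} (hT : ∀ a ∈ T, tr0 C X a ∈ T)
    (halg : ∀ a ∈ T, act0 C H X a = 0 → IsAlgebraic ℚ a) {p : ℕ → cor0 C X}
    (hpT : ∀ i < X.dim, p i ∈ T)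
    (hp : ∀ i < X.dim, ∀ (m : ℤ) (a : H.A X), a ∈ H.gr X m →
      act0 C H X (p i) a = if m = i then a else 0) :
    ∃ κ : cor0 C X, (∀ (m : ℤ) (a : H.A X), a ∈ H.gr X m →
      act0 C H X κ a = (m - X.dim : ℤ) • a) ∧ tr0 C X κ = -κ ∧
      ∃ (N : ℕ) (x : cor0 C X), aeval κ (gp X.dim) ^ N = aeval κ (gp X.dim) ^ (N + 1) * x := by
  obtain ⟨h1, h2⟩ := grading_of_lifts hp
  refine ⟨_, h1, h2, ?_⟩
  have h3 : (∑ i ∈ Finset.range X.dim, ((i : ℤ) - X.dim) • (p i - tr0 C X (p i))) ∈ T := by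
    refine T.sum_mem fun i hi => T.zsmul_mem (T.sub_mem (hpT i (Finset.mem_range.1 hi))
      (hT _ (hpT i (Finset.mem_range.1 hi)))) _
  have h4 : aeval (∑ i ∈ Finset.range X.dim, ((i : ℤ) - X.dim) • (p i - tr0 C X (p i)))
      (gp X.dim) ∈ T :=
    (Algebra.adjoin_le (Set.singleton_subset_iff.2 h3)) (aeval_mem_adjoin_singleton ℚ _)
  obtain ⟨N, x, h5, -⟩ := alg_stat (halg _ h4 (act_gp h1))
  exact ⟨N, x, h5⟩

/-- The lifts given by disjoint spectra. -/
theorem lifts_of_spectra {g : cor0 C X} {P : ℕ → ℚ[X]}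
    (h1 : ∀ i ≤ 2 * X.dim, ∀ a : H.A X, a ∈ H.gr X i → act0 C H X (aeval g (P i)) a = 0)
    (h2 : ∀ i ≤ 2 * X.dim, ∀ j ≤ 2 * X.dim, i ≠ j → IsCoprime (P i) (P j)) :
    ∃ w : ℕ → ℚ[X], ∀ i ≤ 2 * X.dim, ∀ (m : ℤ) (a : H.A X), a ∈ H.gr X m →
      act0 C H X (aeval g (w i)) a = if m = i then a else 0 := by
  have key : ∀ i, ∃ w : ℚ[X], i ≤ 2 * X.dim → ∀ (m : ℤ) (a : H.A X), a ∈ H.gr X m →
      act0 C H X (aeval g w) a = if m = i then a else 0 := by
    intro i
    by_cases hi : i ≤ 2 * X.dim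
    swap
    · exact ⟨0, fun h => absurd h hi⟩
    have hcop : IsCoprime (∏ j ∈ (Finset.range (2 * X.dim + 1)).erase i, P j) (P i) := by
      refine IsCoprime.prod_left fun j hj => ?_
      have hj' := Finset.mem_erase.1 hj
      exact h2 j (by have := Finset.mem_range.1 hj'.2; omega) i hi hj'.1
    obtain ⟨a, b, hab⟩ := hcop
    refine ⟨a * ∏ j ∈ (Finset.range (2 * X.dim + 1)).erase i, P j, fun _ m x hx => ?_⟩
    have hdvd : ∀ (q : ℚ[X]) (j : ℕ), j ≤ 2 * X.dim → P j ∣ q → x ∈ H.gr X j →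
        act0 C H X (aeval g q) x = 0 := by
      rintro q j hj ⟨r, rfl⟩ hxj
      rw [mul_comm, map_mul, map_mul, Module.End.mul_apply, h1 j hj x hxj, map_zero]
    by_cases hm : m < 0 ∨ 2 * (X.dim : ℤ) < m
    · rw [eq_zero_of_deg (H := H) hx hm, map_zero, ite_self]
    push Not at hm
    obtain ⟨j, rfl⟩ : ∃ j : ℕ, m = j := ⟨m.toNat, by omega⟩
    by_cases hji : j = i
    · subst hji
      rw [if_pos rfl]
      have e1 : a * ∏ l ∈ (Finset.range (2 * X.dim + 1)).erase j, P l = 1 - b * P j := by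
        rw [← hab]
        ring
      rw [e1, map_sub, map_one, map_sub, map_one, LinearMap.sub_apply, Module.End.one_apply,
        hdvd _ j hi (dvd_mul_left _ _) hx, sub_zero]
    · rw [if_neg (by exact_mod_cast hji)]
      refine hdvd _ j (by omega) ?_ hx
      exact (Finset.dvd_prod_of_mem _ (Finset.mem_erase.2
        ⟨hji, Finset.mem_range.2 (by omega)⟩)).mul_left _
  choose w hw using key
  exact ⟨w, fun i hi => hw i hi⟩

omit hH in
lemma tr0_adjoin (g : cor0 C X) : ∀ a ∈ Algebra.adjoin ℚ ({g, tr0 C X g} : Set (cor0 C X)),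
    tr0 C X a ∈ Algebra.adjoin ℚ ({g, tr0 C X g} : Set (cor0 C X)) := by
  intro a ha
  induction ha using Algebra.adjoin_induction with
  | mem x hx =>
    rcases hx with rfl | rfl
    · exact Algebra.subset_adjoin (Or.inr rfl)
    · rw [(tr0_antiInv C X).inv]
      exact Algebra.subset_adjoin (Or.inl rfl)
  | algebraMap r =>
    rw [Algebra.algebraMap_eq_smul_one, map_rat_smul, (tr0_antiInv C X).one,
      ← Algebra.algebraMap_eq_smul_one]
    exact Subalgebra.algebraMap_mem _ _
  | add x y _ _ hx hy =>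
    rw [map_add]
    exact Subalgebra.add_mem _ hx hy
  | mul x y _ _ hx hy =>
    rw [(tr0_antiInv C X).mul]
    exact Subalgebra.mul_mem _ hy hx

/-! ### The elements given by a decomposition -/

section diag

variable {π : ℕ → cor0 C X}

omit hH in
lemma tr0_diag (hsd : ∀ i ≤ 2 * X.dim, tr0 C X (π i) = π (2 * X.dim - i)) (c : ℕ → ℚ) :
    tr0 C X (∑ i ∈ Finset.range (2 * X.dim + 1), c i • π i) =
      ∑ i ∈ Finset.range (2 * X.dim + 1), c (2 * X.dim - i) • π i := by
  rw [map_sum, ← Finset.sum_range_reflect]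
  refine Finset.sum_congr rfl fun i hi => ?_
  have := Finset.mem_range.1 hi
  have e1 : 2 * X.dim + 1 - 1 - i = 2 * X.dim - i := by omega
  rw [e1, map_rat_smul, hsd _ (by omega)]
  congr 2
  omega

lemma act_diag (hact : ∀ (i : ℕ) (m : ℤ) (a : H.A X), a ∈ H.gr X m →
      act0 C H X (π i) a = if m = i then a else 0) (c : ℕ → ℚ) {j : ℕ} {a : H.A X}
    (ha : a ∈ H.gr X j) (hc : c j = 0) :
    act0 C H X (∑ i ∈ Finset.range (2 * X.dim + 1), c i • π i) a = 0 := by
  rw [map_sum, LinearMap.sum_apply]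
  refine Finset.sum_eq_zero fun i _ => ?_
  by_cases hij : i = j
  · rw [hij, hc, zero_smul, map_zero, LinearMap.zero_apply]
  · rw [Algebra.smul_def, map_mul, Module.End.mul_apply, hact i j a ha,
      if_neg (by exact_mod_cast Ne.symm hij), map_zero]

lemma act_diag' (hact : ∀ (i : ℕ) (m : ℤ) (a : H.A X), a ∈ H.gr X m →
      act0 C H X (π i) a = if m = i then a else 0) (m : ℤ) (a : H.A X) (ha : a ∈ H.gr X m) :
    act0 C H X (∑ i ∈ Finset.range (2 * X.dim + 1), sh X.dim i • π i) a = (m - X.dim : ℤ) • a := by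
  by_cases hm : m < 0 ∨ 2 * (X.dim : ℤ) < m
  · rw [eq_zero_of_deg (H := H) ha hm, map_zero, smul_zero]
  push Not at hm
  obtain ⟨j, rfl⟩ : ∃ j : ℕ, m = j := ⟨m.toNat, by omega⟩
  rw [map_sum, LinearMap.sum_apply, Finset.sum_eq_single j]
  · have e1 : sh X.dim j • π j = ((j : ℤ) - X.dim : ℤ) • π j := by
      rw [sh_cast, Int.cast_smul_eq_zsmul]
    rw [e1, map_zsmul, LinearMap.smul_apply, hact j j a ha, if_pos rfl]
  · intro i _ hij
    rw [Algebra.smul_def, map_mul, Module.End.mul_apply, hact i j a ha,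
      if_neg (by exact_mod_cast Ne.symm hij), map_zero]
  · intro h
    exact absurd (Finset.mem_range.2 (by omega)) h

end diag

end Pool.Agent.Zk50.SE
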