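import Pool.Agent.Zk50.SE.Equiv

/-!
# Self-dual Chow-Kunneth decompositions from a single correspondence: the equivalences
-/

open CategoryTheory AlgebraicGeometry Polynomial

set_option autoImplicit false
set_option linter.unusedSectionVars false

universe u v w

namespace Pool.Agent.Zk50.SE

open Pool.Agent.H914 Pool.Agent.H914.VarClass Pool.Agent.H914.VarClass.Obj Pool.Agent.W492.BB
  Pool.Agent.W550.Corr Pool.Agent.TH133 Pool.Agent.Y107 Pool.Agent.Zk50.SD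

variable {k : Type u} [Field k] {𝒱 : VarClass k} {C : TheoryData.{u, v, 0} 𝒱 ℚ}
  [hC : IsChowProj C] {K : Type w} [Field K] {H : WeilTheoryData.{u, v, w} C K}
  [hH : IsWeilProj H] {X : 𝒱.Obj}

include hC hH

/-- The projectors as elements of the ring. -/
lemma ck_ring {π : ℕ → C.A (X.prod X)} (h : IsCK H X π) : ∃ ρ : ℕ → cor0 C X,
    (∀ i, ((ρ i : cor0 C X) : Cor C X) = π i) ∧ (∀ i, ρ i * ρ i = ρ i) ∧
    (∀ i j, i ≠ j → ρ i * ρ j = 0) ∧ ∑ i ∈ Finset.range (2 * X.dim + 1), ρ i = 1 ∧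
    (∀ (i : ℕ) (m : ℤ) (a : H.A X), a ∈ H.gr X m →
      act0 C H X (ρ i) a = if m = i then a else 0) ∧
    (IsSelfDual C π → ∀ i ≤ 2 * X.dim, tr0 C X (ρ i) = ρ (2 * X.dim - i)) := by
  refine ⟨fun i => ⟨π i, h.deg i⟩, fun _ => rfl, fun i => Subtype.ext (h.idem i),
    fun i j hij => Subtype.ext (h.orth j i (Ne.symm hij)), Subtype.ext ?_, ?_, ?_⟩
  · rw [AddSubmonoidClass.coe_finset_sum]
    exact h.sum
  · intro i m a ha
    split_ifs with hm
    · subst hm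
      exact h.act_self i a ha
    · exact h.act_ne i m a hm ha
  · intro hsd i hi
    exact Subtype.ext (hsd i hi)

lemma spectra_iff (γ : cor0 C X) : DisjointSpectra H (X := X) (γ : Cor C X) ↔
    ∃ P : ℕ → ℚ[X], (∀ i ≤ 2 * X.dim, ∀ a : H.A X, a ∈ H.gr X i →
      act0 C H X (aeval γ (P i)) a = 0) ∧
      ∀ i ≤ 2 * X.dim, ∀ j ≤ 2 * X.dim, i ≠ j → IsCoprime (P i) (P j) := by
  have key : ∀ (P : ℚ[X]) (a : H.A X), H.act (H.cl (val C (X := X) P (γ : Cor C X))) a =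
      act0 C H X (aeval γ P) a := by
    intro P a
    rw [val_coe]
    rfl
  constructor
  · rintro ⟨P, h1, h2⟩
    refine ⟨P, fun i hi a ha => ?_, h2⟩
    rw [← key]
    exact h1 i hi a ha
  · rintro ⟨P, h1, h2⟩
    refine ⟨P, fun i hi a ha => ?_, h2⟩
    rw [key]
    exact h1 i hi a ha

/-- A diagonal element with distinct eigenvalues. -/
lemma diag_spectra {ρ : ℕ → cor0 C X} (hid : ∀ i, ρ i * ρ i = ρ i)
    (horth : ∀ i j, i ≠ j → ρ i * ρ j = 0)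
    (hsum : ∑ i ∈ Finset.range (2 * X.dim + 1), ρ i = 1)
    (hact : ∀ (i : ℕ) (m : ℤ) (a : H.A X), a ∈ H.gr X m →
      act0 C H X (ρ i) a = if m = i then a else 0) {c : ℕ → ℚ} (hc : Function.Injective c) :
    IsAlgebraic ℚ (∑ i ∈ Finset.range (2 * X.dim + 1), c i • ρ i) ∧
    ∃ P : ℕ → ℚ[X], (∀ i ≤ 2 * X.dim, ∀ a : H.A X, a ∈ H.gr X i →
      act0 C H X (aeval (∑ i ∈ Finset.range (2 * X.dim + 1), c i • ρ i) (P i)) a = 0) ∧
      ∀ i ≤ 2 * X.dim, ∀ j ≤ 2 * X.dim, i ≠ j → IsCoprime (P i) (P j) := by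
  constructor
  · refine ⟨∏ i ∈ Finset.range (2 * X.dim + 1), (Polynomial.X - Polynomial.C (c i)), ?_, ?_⟩
    · exact Finset.prod_ne_zero_iff.2 fun i _ => X_sub_C_ne_zero _
    · rw [aeval_diag hid horth hsum]
      refine Finset.sum_eq_zero fun i hi => ?_
      rw [eval_prod, Finset.prod_eq_zero hi (by simp), zero_smul]
  · refine ⟨fun i => Polynomial.X - Polynomial.C (c i), ?_, ?_⟩
    · intro i _ a ha
      have e1 : aeval (∑ i ∈ Finset.range (2 * X.dim + 1), c i • ρ i)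
          (Polynomial.X - Polynomial.C (c i)) =
          ∑ j ∈ Finset.range (2 * X.dim + 1), (c j - c i) • ρ j := by
        rw [aeval_diag hid horth hsum]
        refine Finset.sum_congr rfl fun j _ => ?_
        rw [eval_sub, eval_X, eval_C]
      have e2 := act_diag hact (fun j => c j - c i) ha (sub_self (c i))
      rw [← e1] at e2
      exact e2
    · intro i _ j _ hij
      refine isCoprime_X_sub_C_of_isUnit_sub ?_
      rw [isUnit_iff_ne_zero, sub_ne_zero]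
      exact fun h => hij (hc h)

omit hH in
/-- Two-sided stationarity for antisymmetric elements. -/
lemma two_sided {κ : cor0 C X} (hs : tr0 C X κ = -κ) {N : ℕ} {x : cor0 C X}
    (h : aeval κ (gp X.dim) ^ N = aeval κ (gp X.dim) ^ (N + 1) * x) :
    aeval κ (gp X.dim) ^ N = (-tr0 C X x) * aeval κ (gp X.dim) ^ (N + 1) := by
  obtain ⟨a, ha⟩ : ∃ a, a = aeval κ (gp X.dim) := ⟨_, rfl⟩
  have hsa : tr0 C X a = -a := by
    rw [ha, (tr0_antiInv C X).aeval, hs]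
    have : aeval (-κ) (gp X.dim) = aeval κ ((gp X.dim).comp (-Polynomial.X)) := by
      rw [aeval_comp, map_neg, aeval_X]
    rw [this, gp_comp, map_neg]
  rw [← ha] at h ⊢
  have h1 := congrArg (tr0 C X) h
  rw [(tr0_antiInv C X).mul, (tr0_antiInv C X).pow, (tr0_antiInv C X).pow, hsa, neg_pow,
    neg_pow a (N + 1)] at h1
  have h2 : ((-1 : cor0 C X) ^ N) * ((-1) ^ N) = 1 := by
    rw [← pow_add, ← two_mul, pow_mul]
    simp
  have h3 : Commute ((-1 : cor0 C X) ^ N) (tr0 C X x) := (Commute.neg_one_left _).pow_left N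
  calc a ^ N = (-1) ^ N * ((-1) ^ N * a ^ N) := by rw [← mul_assoc, h2, one_mul]
    _ = (-1) ^ N * (tr0 C X x * ((-1) ^ (N + 1) * a ^ (N + 1))) := by rw [h1]
    _ = ((-1) ^ N * tr0 C X x) * ((-1) ^ (N + 1) * a ^ (N + 1)) := by rw [mul_assoc]
    _ = (tr0 C X x * (-1) ^ N) * ((-1) ^ (N + 1) * a ^ (N + 1)) := by rw [h3.eq]
    _ = tr0 C X x * (((-1) ^ N * (-1) ^ (N + 1)) * a ^ (N + 1)) := by simp only [mul_assoc]
    _ = tr0 C X x * ((-1) * a ^ (N + 1)) := by rw [pow_succ, ← mul_assoc ((-1) ^ N), h2, one_mul]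
    _ = _ := by rw [neg_one_mul, mul_neg, neg_mul]

variable (X)

theorem one_four (h : ∃ π : ℕ → C.A (X.prod X), IsCK H X π ∧ IsSelfDual C π) :
    ∃ (γ : C.A (X.prod X)) (c : ℚ), c ≠ 0 ∧ C.Deg X.dim γ ∧
      (C.comp γ (tp C γ) = c • dg C X ∨ C.comp (tp C γ) γ = c • dg C X) ∧ Algebraic C γ ∧
      DisjointSpectra H γ := by
  obtain ⟨π, h1, h2⟩ := h
  obtain ⟨ρ, -, hid, horth, hsum, hact, hsd⟩ := ck_ring h1
  have hc : Function.Injective fun i : ℕ => (2 : ℚ) ^ i := by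
    intro i j hij
    exact pow_right_injective₀ (by norm_num) (by norm_num) hij
  obtain ⟨h3, h4⟩ := diag_spectra hid horth hsum hact hc
  obtain ⟨F, hF⟩ : ∃ F, F = ∑ i ∈ Finset.range (2 * X.dim + 1), (2 : ℚ) ^ i • ρ i := ⟨_, rfl⟩
  rw [← hF] at h3
  refine ⟨(F : Cor C X), 2 ^ (2 * X.dim), by positivity, F.2, Or.inr ?_, (alg_iff F).2 h3,
    (spectra_iff F).2 (by rw [hF]; exact h4)⟩
  have h5 : F * tr0 C X F = (2 : ℚ) ^ (2 * X.dim) • (1 : cor0 C X) := by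
    rw [hF, tr0_diag (hsd h2) (fun i => (2 : ℚ) ^ i), idem_mul_sum hid horth, ← hsum,
      Finset.smul_sum]
    refine Finset.sum_congr rfl fun i hi => ?_
    have := Finset.mem_range.1 hi
    rw [← pow_add]
    congr 2
    omega
  exact congrArg Subtype.val h5

theorem four_three (h : ∃ (γ : C.A (X.prod X)) (c : ℚ), c ≠ 0 ∧ C.Deg X.dim γ ∧
      (C.comp γ (tp C γ) = c • dg C X ∨ C.comp (tp C γ) γ = c • dg C X) ∧ Algebraic C γ ∧
      DisjointSpectra H γ) :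
    ∃ γ : C.A (X.prod X), C.Deg X.dim γ ∧ C.comp γ (tp C γ) = C.comp (tp C γ) γ ∧
      Algebraic C γ ∧ DisjointSpectra H γ := by
  obtain ⟨γ, c, hc, hγ, hs, ha, hd⟩ := h
  refine ⟨γ, hγ, ?_, ha, hd⟩
  obtain ⟨g, hg⟩ : ∃ g : cor0 C X, (g : Cor C X) = γ := ⟨⟨γ, hγ⟩, rfl⟩
  have ha' : IsAlgebraic ℚ g := (alg_iff g).1 (by rw [hg]; exact ha)
  have e1 : ((g * tr0 C X g : cor0 C X) : Cor C X) = C.comp (tp C γ) γ := by rw [← hg]; rfl
  have e2 : ((tr0 C X g * g : cor0 C X) : Cor C X) = C.comp γ (tp C γ) := by rw [← hg]; rfl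
  have key : g * tr0 C X g = tr0 C X g * g := by
    rcases hs with hs | hs
    · have h1 : tr0 C X g * g = c • (1 : cor0 C X) := Subtype.ext (e2.trans hs)
      have h2 : (c⁻¹ • tr0 C X g) * g = 1 := by
        rw [smul_mul_assoc, h1, smul_smul, inv_mul_cancel₀ hc, one_smul]
      have h3 : IsAlgebraic ℚ (tr0 C X g) := by
        obtain ⟨P, h0, hP⟩ := ha'
        refine ⟨P, h0, ?_⟩
        rw [← (tr0_antiInv C X).aeval, hP, map_zero]
      have h4 : IsAlgebraic ℚ (c⁻¹ • tr0 C X g) := h3.smul _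
      have h5 := alg_inv h4 h2
      rw [mul_smul_comm] at h5
      rw [h1, ← h5, smul_smul, mul_inv_cancel₀ hc, one_smul]
    · have h1 : g * tr0 C X g = c • (1 : cor0 C X) := Subtype.ext (e1.trans hs)
      have h2 : g * (c⁻¹ • tr0 C X g) = 1 := by
        rw [mul_smul_comm, h1, smul_smul, inv_mul_cancel₀ hc, one_smul]
      have h5 := alg_inv ha' h2
      rw [smul_mul_assoc] at h5
      rw [h1, ← h5, smul_smul, mul_inv_cancel₀ hc, one_smul]
  rw [← e1, ← e2, key]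

theorem three_five (h : ∃ γ : C.A (X.prod X), C.Deg X.dim γ ∧
      C.comp γ (tp C γ) = C.comp (tp C γ) γ ∧ Algebraic C γ ∧ DisjointSpectra H γ) :
    ∃ S : Set (C.A (X.prod X)), NearlyAlgebraicRing H S ∧ ∀ i < X.dim, ∃ p ∈ S, IsLift H i p := by
  obtain ⟨γ, hγ, hs, ha, hd⟩ := h
  obtain ⟨g, hg⟩ : ∃ g : cor0 C X, (g : Cor C X) = γ := ⟨⟨γ, hγ⟩, rfl⟩
  have ha' : IsAlgebraic ℚ g := (alg_iff g).1 (by rw [hg]; exact ha)
  obtain ⟨P, h1, h2⟩ := (spectra_iff g).1 (by rw [hg]; exact hd)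
  obtain ⟨w, hw⟩ := lifts_of_spectra h1 h2
  have hcomm : g * tr0 C X g = tr0 C X g * g := by
    apply Subtype.ext
    have e1 : ((g * tr0 C X g : cor0 C X) : Cor C X) = C.comp (tp C γ) γ := by rw [← hg]; rfl
    have e2 : ((tr0 C X g * g : cor0 C X) : Cor C X) = C.comp γ (tp C γ) := by rw [← hg]; rfl
    rw [e1, e2, hs]
  have hs' : IsAlgebraic ℚ (tr0 C X g) := by
    obtain ⟨Q, h0, hQ⟩ := ha'
    refine ⟨Q, h0, ?_⟩
    rw [← (tr0_antiInv C X).aeval, hQ, map_zero]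
  obtain ⟨T, hT⟩ : ∃ T, T = Algebra.adjoin ℚ ({g, tr0 C X g} : Set (cor0 C X)) := ⟨_, rfl⟩
  refine ⟨{a | ∃ b ∈ T, ((b : cor0 C X) : Cor C X) = a}, ⟨?_, ?_, ?_, ?_, ?_, ?_, ?_⟩, ?_⟩
  · rintro _ ⟨b, -, rfl⟩
    exact b.2
  · exact ⟨1, T.one_mem, rfl⟩
  · rintro _ ⟨a, ha, rfl⟩ _ ⟨b, hb, rfl⟩
    exact ⟨a + b, T.add_mem ha hb, rfl⟩
  · rintro q _ ⟨a, ha, rfl⟩
    exact ⟨q • a, T.smul_mem ha q, rfl⟩
  · rintro _ ⟨a, ha, rfl⟩ _ ⟨b, hb, rfl⟩
    exact ⟨b * a, T.mul_mem hb ha, rfl⟩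
  · rintro _ ⟨a, ha, rfl⟩
    rw [hT] at ha
    exact ⟨tr0 C X a, by rw [hT]; exact tr0_adjoin g a ha, rfl⟩
  · rintro _ ⟨a, ha, rfl⟩ -
    rw [hT] at ha
    exact (alg_iff a).2 (alg_of_comm hcomm ha' hs' a ha)
  · intro i hi
    refine ⟨((aeval g (w i) : cor0 C X) : Cor C X), ⟨_, ?_, rfl⟩, ?_⟩
    · rw [hT]
      have hsub : ({g} : Set (cor0 C X)) ⊆ {g, tr0 C X g} :=
        Set.singleton_subset_iff.2 (Set.mem_insert _ _)
      exact Algebra.adjoin_mono hsub (aeval_mem_adjoin_singleton ℚ g)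
    · intro m a ha
      exact hw i (by omega) m a ha

theorem five_two (h : ∃ S : Set (C.A (X.prod X)), NearlyAlgebraicRing H S ∧
      ∀ i < X.dim, ∃ p ∈ S, IsLift H i p) :
    ∃ κ : C.A (X.prod X), IsGrading H κ ∧ tp C κ = -κ ∧
      StationaryRight C (val C (gp X.dim) κ) := by
  obtain ⟨S, hS, hp⟩ := h
  have hp' : ∀ i, ∃ p : cor0 C X, i < X.dim → ((p : cor0 C X) : Cor C X) ∈ S ∧
      IsLift H (X := X) i ((p : cor0 C X) : Cor C X) := by
    intro i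
    by_cases hi : i < X.dim
    · obtain ⟨p, hpS, hpl⟩ := hp i hi
      exact ⟨⟨p, hS.deg p hpS⟩, fun _ => ⟨hpS, hpl⟩⟩
    · exact ⟨0, fun h => absurd h hi⟩
  choose p hpp using hp'
  let T : Subalgebra ℚ (cor0 C X) :=
    { carrier := {a | ((a : cor0 C X) : Cor C X) ∈ S}
      mul_mem' := fun {a b} ha hb => hS.comp _ hb _ ha
      add_mem' := fun {a b} ha hb => hS.add _ ha _ hb
      algebraMap_mem' := fun q => by
        change ((algebraMap ℚ (cor0 C X) q : cor0 C X) : Cor C X) ∈ S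
        rw [Algebra.algebraMap_eq_smul_one]
        exact hS.smul q _ hS.one }
  obtain ⟨κ, h1, h2, N, x, h3⟩ := of_ring (T := T) (fun a ha => hS.transpose _ ha)
    (fun a ha h0 => (alg_iff a).1 (hS.algebraic _ ha (act0_eq_zero_iff.1 h0)))
    (p := p) (fun i hi => (hpp i hi).1) (fun i hi m a ha => (hpp i hi).2 m a ha)
  refine ⟨((κ : cor0 C X) : Cor C X), ⟨κ.2, fun i a ha => h1 i a ha⟩, congrArg Subtype.val h2, ?_⟩
  rw [val_coe, right_iff]
  exact ⟨N, x, h3⟩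

theorem two_one (h : ∃ κ : C.A (X.prod X), IsGrading H κ ∧ tp C κ = -κ ∧
      StationaryRight C (val C (gp X.dim) κ)) :
    ∃ π : ℕ → C.A (X.prod X), IsCK H X π ∧ IsSelfDual C π := by
  obtain ⟨κ, ⟨hd, hκ⟩, hs, hst⟩ := h
  obtain ⟨g, hg⟩ : ∃ g : cor0 C X, (g : Cor C X) = κ := ⟨⟨κ, hd⟩, rfl⟩
  have hs' : tr0 C X g = -g := by
    apply Subtype.ext
    have e1 : ((tr0 C X g : cor0 C X) : Cor C X) = tp C κ := by rw [← hg]; rfl
    rw [e1, hs, ← hg]
    rfl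
  rw [← hg, val_coe, right_iff] at hst
  obtain ⟨N, x, h1⟩ := hst
  obtain ⟨π, h2, h3⟩ := exists_ck (κ := g) (fun m a ha => by
    have := hκ m a ha
    rw [← hg] at this
    exact this) h1 (two_sided hs' h1)
  exact ⟨π, h2, h3 hs'⟩

/-! ### Without duality -/

theorem ck_one_two (h : ∃ π : ℕ → C.A (X.prod X), IsCK H X π) :
    ∃ γ : C.A (X.prod X), C.Deg X.dim γ ∧ Algebraic C γ ∧ DisjointSpectra H γ := by
  obtain ⟨π, h1⟩ := h
  obtain ⟨ρ, -, hid, horth, hsum, hact, -⟩ := ck_ring h1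
  obtain ⟨h3, h4⟩ := diag_spectra hid horth hsum hact (fun _ _ h => sh_inj h : Function.Injective (sh X.dim))
  exact ⟨((∑ i ∈ Finset.range (2 * X.dim + 1), sh X.dim i • ρ i : cor0 C X) : Cor C X),
    (∑ i ∈ Finset.range (2 * X.dim + 1), sh X.dim i • ρ i : cor0 C X).2, (alg_iff _).2 h3,
    (spectra_iff _).2 h4⟩

theorem ck_two_three (h : ∃ γ : C.A (X.prod X), C.Deg X.dim γ ∧ Algebraic C γ ∧
      DisjointSpectra H γ) :
    ∃ κ : C.A (X.prod X), IsGrading H κ ∧ StationaryRight C (val C (gp X.dim) κ) ∧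
      StationaryLeft C (val C (gp X.dim) κ) := by
  obtain ⟨γ, hγ, ha, hd⟩ := h
  obtain ⟨g, hg⟩ : ∃ g : cor0 C X, (g : Cor C X) = γ := ⟨⟨γ, hγ⟩, rfl⟩
  have ha' : IsAlgebraic ℚ g := (alg_iff g).1 (by rw [hg]; exact ha)
  obtain ⟨P, h1, h2⟩ := (spectra_iff g).1 (by rw [hg]; exact hd)
  obtain ⟨w, hw⟩ := lifts_of_spectra h1 h2
  -- the operator
  obtain ⟨W, hW⟩ : ∃ W : ℚ[X], W = ∑ i ∈ Finset.range (2 * X.dim + 1),
    ((i : ℤ) - X.dim) • w i := ⟨_, rfl⟩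
  have hact : ∀ (m : ℤ) (a : H.A X), a ∈ H.gr X m →
      act0 C H X (aeval g W) a = (m - X.dim : ℤ) • a := by
    intro m a ha
    by_cases hm : m < 0 ∨ 2 * (X.dim : ℤ) < m
    · rw [eq_zero_of_deg (H := H) ha hm, map_zero, smul_zero]
    push Not at hm
    obtain ⟨j, rfl⟩ : ∃ j : ℕ, m = j := ⟨m.toNat, by omega⟩
    rw [hW, map_sum, map_sum, LinearMap.sum_apply, Finset.sum_eq_single j]
    · rw [map_zsmul, map_zsmul, LinearMap.smul_apply, hw j (by omega) j a ha, if_pos rfl]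
    · intro i hi hij
      have := Finset.mem_range.1 hi
      rw [map_zsmul, map_zsmul, LinearMap.smul_apply, hw i (by omega) j a ha,
        if_neg (by exact_mod_cast Ne.symm hij), smul_zero]
    · intro h
      exact absurd (Finset.mem_range.2 (by omega)) h
  have hmem : aeval (aeval g W) (gp X.dim) ∈ Algebra.adjoin ℚ ({g, 1} : Set (cor0 C X)) := by
    rw [← aeval_comp]
    have hsub : ({g} : Set (cor0 C X)) ⊆ {g, 1} :=
      Set.singleton_subset_iff.2 (Set.mem_insert _ _)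
    exact Algebra.adjoin_mono hsub (aeval_mem_adjoin_singleton ℚ g)
  have h3 := alg_of_comm (g := g) (h := 1) (by simp) ha' isAlgebraic_one _ hmem
  obtain ⟨N, x, h4, h5⟩ := alg_stat h3
  refine ⟨((aeval g W : cor0 C X) : Cor C X), ⟨(aeval g W).2, fun i a ha => hact i a ha⟩, ?_, ?_⟩
  · rw [val_coe, right_iff]
    exact ⟨N, x, h4⟩
  · rw [val_coe, left_iff]
    exact ⟨N, x, h5⟩

theorem ck_three_one (h : ∃ κ : C.A (X.prod X), IsGrading H κ ∧
      StationaryRight C (val C (gp X.dim) κ) ∧ StationaryLeft C (val C (gp X.dim) κ)) :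
    ∃ π : ℕ → C.A (X.prod X), IsCK H X π := by
  obtain ⟨κ, ⟨hd, hκ⟩, h1, h2⟩ := h
  obtain ⟨g, hg⟩ : ∃ g : cor0 C X, (g : Cor C X) = κ := ⟨⟨κ, hd⟩, rfl⟩
  rw [← hg, val_coe, right_iff] at h1
  rw [← hg, val_coe, left_iff] at h2
  obtain ⟨N, x, h1⟩ := h1
  obtain ⟨M, y, h2⟩ := h2
  obtain ⟨a, ha⟩ : ∃ a, a = aeval g (gp X.dim) := ⟨_, rfl⟩
  rw [← ha] at h1 h2
  -- a common exponent
  have e1 : a ^ (N + M) = a ^ (N + M + 1) * x := by
    calc a ^ (N + M) = a ^ M * a ^ N := by rw [← pow_add, add_comm]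
      _ = a ^ M * (a ^ (N + 1) * x) := by rw [← h1]
      _ = _ := by
        rw [← mul_assoc, ← pow_add]
        congr 2
        omega
  have e2 : a ^ (N + M) = y * a ^ (N + M + 1) := by
    calc a ^ (N + M) = a ^ M * a ^ N := by rw [← pow_add, add_comm]
      _ = y * a ^ (M + 1) * a ^ N := by rw [← h2]
      _ = _ := by
        rw [mul_assoc, ← pow_add]
        congr 2
        omega
  rw [ha] at e1 e2
  obtain ⟨π, h3, -⟩ := exists_ck (κ := g) (fun m a ha => by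
    have := hκ m a ha
    rw [← hg] at this
    exact this) e1 e2
  exact ⟨π, h3⟩

end Pool.Agent.Zk50.SE
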