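import Pool.Agent.Zk50.SE.Alg
import Pool.Agent.Zk50.SE.Defs
import Pool.Agent.Zk50.SD.Main

/-!
# Self-dual Chow-Kunneth decompositions from a single correspondence
-/

open CategoryTheory AlgebraicGeometry Polynomial

set_option autoImplicit false
set_option linter.unusedSectionVars false

universe u v w

namespace Pool.Agent.Zk50.SE

open Pool.Agent.H914 Pool.Agent.H914.VarClass Pool.Agent.H914.VarClass.Obj Pool.Agent.W492.BB
  Pool.Agent.W550.Corr Pool.Agent.TH133 Pool.Agent.Y107 Pool.Agent.Zk50.SD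

variable {k : Type u} [Field k] {𝒱 : VarClass k} {C : TheoryData.{u, v, 0} 𝒱 ℚ}
  [hC : IsChowProj C] {K : Type w} [Field K] {H : WeilTheoryData.{u, v, w} C K}
  [hH : IsWeilProj H] {X : 𝒱.Obj}

/-! ### Translation to the ring of correspondences -/

lemma val_cor (P : ℚ[X]) (γ : Cor C X) : val C (X := X) P γ = (aeval γ P : Cor C X) := by
  have h1 : (aeval γ P : Cor C X) = P.sum fun n c => c • γ ^ n := by
    rw [aeval_def, eval₂_eq_sum]
    refine Finset.sum_congr rfl fun n _ => ?_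
    change algebraMap ℚ (Cor C X) (P.coeff n) * γ ^ n = P.coeff n • γ ^ n
    rw [Algebra.smul_def]
  rw [h1]
  change (P.sum fun n c => c • corPow C (X := X) γ n) = _
  refine Finset.sum_congr rfl fun n _ => ?_
  exact congrArg (fun z : Cor C X => P.coeff n • z) (corPow_eq γ n)

lemma aeval_coe (P : ℚ[X]) (γ : cor0 C X) :
    ((aeval γ P : cor0 C X) : Cor C X) = aeval (γ : Cor C X) P :=
  (aeval_algHom_apply (cor0 C X).val γ P).symm

lemma val_coe (P : ℚ[X]) (γ : cor0 C X) :
    val C (X := X) P (γ : Cor C X) = ((aeval γ P : cor0 C X) : Cor C X) := by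
  rw [val_cor, aeval_coe]

lemma alg_iff (γ : cor0 C X) : Algebraic C (X := X) (γ : Cor C X) ↔ IsAlgebraic ℚ γ := by
  constructor
  · rintro ⟨P, h0, hP⟩
    refine ⟨P, h0, Subtype.ext ?_⟩
    rw [val_coe] at hP
    exact hP
  · rintro ⟨P, h0, hP⟩
    refine ⟨P, h0, ?_⟩
    rw [val_coe, hP]
    rfl

lemma right_iff (γ : cor0 C X) : StationaryRight C (X := X) (γ : Cor C X) ↔
    ∃ (n : ℕ) (δ : cor0 C X), γ ^ n = γ ^ (n + 1) * δ := by
  constructor
  · rintro ⟨n, δ, hδ, h⟩
    refine ⟨n, ⟨δ, hδ⟩, Subtype.ext ?_⟩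
    rw [corPow_eq, corPow_eq] at h
    exact h
  · rintro ⟨n, δ, h⟩
    refine ⟨n, ((δ : cor0 C X) : Cor C X), δ.2, ?_⟩
    rw [corPow_eq, corPow_eq]
    exact congrArg Subtype.val h

lemma left_iff (γ : cor0 C X) : StationaryLeft C (X := X) (γ : Cor C X) ↔
    ∃ (n : ℕ) (δ : cor0 C X), γ ^ n = δ * γ ^ (n + 1) := by
  constructor
  · rintro ⟨n, δ, hδ, h⟩
    refine ⟨n, ⟨δ, hδ⟩, Subtype.ext ?_⟩
    rw [corPow_eq, corPow_eq] at h
    exact h
  · rintro ⟨n, δ, h⟩
    refine ⟨n, ((δ : cor0 C X) : Cor C X), δ.2, ?_⟩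
    rw [corPow_eq, corPow_eq]
    exact congrArg Subtype.val h

/-! ### The action on the cohomology -/

lemma sh_cast (d i : ℕ) : sh d i = (((i : ℤ) - d : ℤ) : ℚ) := by
  unfold sh
  push_cast
  rfl

include hC hH

/-- Classes of degrees outside of `[0, 2 dim X]` vanish. -/
lemma eq_zero_of_deg {m : ℤ} {a : H.A X} (ha : a ∈ H.gr X m) (hm : m < 0 ∨ 2 * (X.dim : ℤ) < m) :
    a = 0 := by
  rcases hm with h | h
  · rw [H.gr_neg X m h] at ha
    exact (Submodule.mem_bot _).1 ha
  · rw [gr_top H (by omega)] at ha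
    exact (Submodule.mem_bot _).1 ha

lemma act_poly {κ : cor0 C X} {x : H.A X} {z : ℤ} (hx : act0 C H X κ x = z • x) (q : ℚ[X]) (n : ℤ)
    (hq : q.eval (z : ℚ) = n) : act0 C H X (aeval κ q) x = n • x := by
  have h1 : (Polynomial.X - Polynomial.C (z : ℚ)) ∣ q - Polynomial.C (n : ℚ) := by
    rw [dvd_iff_isRoot, IsRoot.def, eval_sub, eval_C, hq, sub_self]
  obtain ⟨r, hr⟩ := h1
  have h2 : q = Polynomial.C (n : ℚ) + r * (Polynomial.X - Polynomial.C (z : ℚ)) := by
    rw [mul_comm r, ← hr]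
    ring
  have hcast : ∀ n : ℤ, (aeval κ (Polynomial.C (n : ℚ)) : cor0 C X) = (n : cor0 C X) := by
    intro n
    rw [aeval_C]
    exact map_intCast _ n
  have hint : ∀ (n : ℤ) (x : H.A X), ((n : ℤ) : Module.End K (H.A X)) x = n • x := by
    intro n x
    exact Module.End.intCast_apply n x
  rw [h2, map_add, hcast, map_mul, map_sub, aeval_X, hcast, map_add, map_mul, map_sub,
    map_intCast, map_intCast, LinearMap.add_apply, Module.End.mul_apply, LinearMap.sub_apply,
    hint, hint, hx, sub_self, map_zero, add_zero]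

/-- **The decomposition** given by a lift of the grading operator. -/
theorem exists_ck {κ : cor0 C X}
    (hκ : ∀ (m : ℤ) (a : H.A X), a ∈ H.gr X m → act0 C H X κ a = (m - X.dim : ℤ) • a) {N : ℕ}
    {x y : cor0 C X} (h1 : aeval κ (gp X.dim) ^ N = aeval κ (gp X.dim) ^ (N + 1) * x)
    (h2 : aeval κ (gp X.dim) ^ N = y * aeval κ (gp X.dim) ^ (N + 1)) :
    ∃ π : ℕ → C.A (X.prod X), IsCK H X π ∧ (tr0 C X κ = -κ → IsSelfDual C π) := by
  obtain ⟨e, u, π, ⟨r, hr⟩, hev, hπ, hπ0, hid, horth, hsum, hdual⟩ :=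
    exists_idem (s := tr0 C X) h1 h2
  have hact : ∀ (i : ℕ) (m : ℤ) (a : H.A X), a ∈ H.gr X m →
      act0 C H X (π i) a = if m = i then a else 0 := by
    intro i m a ha
    by_cases hm : m < 0 ∨ 2 * (X.dim : ℤ) < m
    · rw [eq_zero_of_deg (H := H) ha hm, map_zero, ite_self]
    push Not at hm
    obtain ⟨j, rfl⟩ : ∃ j : ℕ, m = j := ⟨m.toNat, by omega⟩
    have hj : j ≤ 2 * X.dim := by omega
    have hκa := hκ j a ha
    have he : act0 C H X e a = 0 := by
      rw [hr, map_mul, Module.End.mul_apply, act_poly hκa (gp X.dim) 0, zero_smul, map_zero]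
      rw [← sh_cast, gp_eval hj, Int.cast_zero]
    rcases le_or_gt i (2 * X.dim) with hi | hi
    · rw [hπ i hi, map_add, map_mul, map_sub, map_one, LinearMap.add_apply, Module.End.mul_apply,
        LinearMap.sub_apply, he, Module.End.one_apply, sub_zero]
      have h3 : act0 C H X (if i = X.dim then e else 0) a = 0 := by
        split_ifs
        · exact he
        · rw [map_zero, LinearMap.zero_apply]
      rw [h3, add_zero]
      by_cases hij : i = j
      · subst hij
        rw [act_poly hκa (u i) 1, one_smul, if_pos rfl]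
        rw [← sh_cast, hev i hi i hj, if_pos rfl, Int.cast_one]
      · rw [act_poly hκa (u i) 0, zero_smul, if_neg (by exact_mod_cast Ne.symm hij)]
        rw [← sh_cast, hev i hi j hj, if_neg hij, Int.cast_zero]
    · rw [hπ0 i hi, map_zero, LinearMap.zero_apply, if_neg (by omega)]
  refine ⟨fun i => ((π i : cor0 C X) : Cor C X), ⟨fun i => (π i).2, fun i hi => ?_, fun i => ?_,
    fun i j hij => ?_, ?_, fun i a ha => ?_, fun i m a hm ha => ?_⟩, fun hs i hi => ?_⟩
  · rw [hπ0 i hi]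
    rfl
  · exact congrArg Subtype.val (hid i)
  · exact congrArg Subtype.val (horth j i (Ne.symm hij))
  · have h3 := congrArg Subtype.val hsum
    rw [AddSubmonoidClass.coe_finset_sum] at h3
    exact h3
  · have h3 := hact i i a ha
    rw [if_pos rfl] at h3
    exact h3
  · have h3 := hact i m a ha
    rw [if_neg hm] at h3
    exact h3
  · exact congrArg Subtype.val (hdual (tr0_antiInv C X) hs i hi)

end Pool.Agent.Zk50.SE
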