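import Pool.Agent.Zk50.SD.Ring

/-!
# Idempotents from a single element

`A` is an algebra over the rational numbers. An element `c` with `c = c² x = y c²` has an idempotent
`e` (the projection onto its invertible part). For an element `κ` such that a power of `f(κ)`,
`f = ∏ (X - i)`, has this property, one gets orthogonal idempotents, and if there is an
anti-involution `s` with `s κ = - κ` (and the integers `i` are symmetric with respect to zero) then
the family of these idempotents is invariant under `s`.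
-/

set_option autoImplicit false

open Polynomial

namespace Pool.Agent.Zk50.SE

open Pool.Agent.Zk50.SD (AntiInv)

section fitting

variable {A : Type*} [Ring A]

/-- The Fitting idempotent. -/
theorem fitting {c x y : A} (h1 : c = c * c * x) (h2 : c = y * (c * c)) :
    ∃ e : A, e * e = e ∧ e * c = c ∧ c * e = c ∧ e = c * x ∧ e = y * c ∧
      ∀ z, z * c = c * z → z * e = e * z := by
  have hyc : y * c = c * x := by
    calc y * c = y * (c * c * x) := by rw [← h1]
      _ = (y * (c * c)) * x := by simp only [mul_assoc]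
      _ = c * x := by rw [← h2]
  obtain ⟨e, he⟩ : ∃ e, e = c * x := ⟨_, rfl⟩
  have hec : e * c = c := by rw [he, ← hyc, mul_assoc, ← h2]
  have hce : c * e = c := by rw [he, ← mul_assoc, ← h1]
  refine ⟨e, ?_, hec, hce, he, by rw [he, hyc], ?_⟩
  · calc e * e = e * (c * x) := by rw [← he]
      _ = c * x := by rw [← mul_assoc, hec]
      _ = e := he.symm
  · intro z hz
    have h3 : z * e = e * z * e := by
      calc z * e = z * (c * x) := by rw [← he]
        _ = c * z * x := by rw [← mul_assoc, hz]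
        _ = e * c * z * x := by rw [hec]
        _ = e * (c * z) * x := by simp only [mul_assoc]
        _ = e * (z * c) * x := by rw [hz]
        _ = e * z * (c * x) := by simp only [mul_assoc]
        _ = e * z * e := by rw [← he]
    have h4 : e * z = e * z * e := by
      have he' : e = y * c := by rw [he, hyc]
      calc e * z = y * c * z := by rw [← he']
        _ = y * (z * c) := by rw [mul_assoc, hz]
        _ = y * (z * (c * e)) := by rw [hce]
        _ = y * ((z * c) * e) := by simp only [mul_assoc]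
        _ = y * ((c * z) * e) := by rw [hz]
        _ = y * c * z * e := by simp only [mul_assoc]
        _ = e * z * e := by rw [← he']
    rw [h3, ← h4]

lemma pow_stab {a x : A} {N : ℕ} (h : a ^ N = a ^ (N + 1) * x) (j : ℕ) :
    a ^ N = a ^ (N + j) * x ^ j := by
  induction j with
  | zero => simp
  | succ j ih =>
    calc a ^ N = a ^ (N + j) * x ^ j := ih
      _ = a ^ j * a ^ N * x ^ j := by rw [← pow_add, add_comm j N]
      _ = a ^ j * (a ^ (N + 1) * x) * x ^ j := by rw [← h]
      _ = a ^ (N + (j + 1)) * x ^ (j + 1) := by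
          rw [← mul_assoc, ← pow_add, mul_assoc, ← pow_succ']
          congr 2
          omega

lemma pow_stab' {a y : A} {N : ℕ} (h : a ^ N = y * a ^ (N + 1)) (j : ℕ) :
    a ^ N = y ^ j * a ^ (N + j) := by
  induction j with
  | zero => simp
  | succ j ih =>
    calc a ^ N = y ^ j * a ^ (N + j) := ih
      _ = y ^ j * (a ^ N * a ^ j) := by rw [← pow_add]
      _ = y ^ j * (y * a ^ (N + 1) * a ^ j) := by rw [← h]
      _ = y ^ (j + 1) * a ^ (N + (j + 1)) := by
          rw [mul_assoc y, ← pow_add, ← mul_assoc, ← pow_succ]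
          congr 2
          omega

end fitting

section crt

/-- The values `i - d`. -/
def sh (d : ℕ) (i : ℕ) : ℚ := (i : ℚ) - d

lemma sh_inj {d i j : ℕ} (h : sh d i = sh d j) : i = j := by
  unfold sh at h
  have : (i : ℚ) = j := by linarith
  exact_mod_cast this

lemma sh_dual {d i : ℕ} (hi : i ≤ 2 * d) : sh d (2 * d - i) = - sh d i := by
  unfold sh
  push_cast [Nat.cast_sub hi]
  ring

/-- The polynomial `∏ (X - (i - d))`, `0 ≤ i ≤ 2 d`. -/
noncomputable def gp (d : ℕ) : ℚ[X] := ∏ i ∈ Finset.range (2 * d + 1), (X - C (sh d i))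

lemma gp_eval {d i : ℕ} (hi : i ≤ 2 * d) : (gp d).eval (sh d i) = 0 := by
  unfold gp
  rw [eval_prod]
  exact Finset.prod_eq_zero (Finset.mem_range.2 (by omega : i < 2 * d + 1)) (by simp)

lemma gp_comp (d : ℕ) : (gp d).comp (-X) = - gp d := by
  unfold gp
  rw [prod_comp]
  have h1 : ∀ i ∈ Finset.range (2 * d + 1), (X - C (sh d i)).comp (-X) =
      (-1) * (X - C (sh d (2 * d - i))) := by
    intro i hi
    have hi' : i ≤ 2 * d := by have := Finset.mem_range.1 hi; omega
    rw [sh_dual hi']
    simp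
    ring
  rw [Finset.prod_congr rfl h1, Finset.prod_mul_distrib, Finset.prod_const, Finset.card_range]
  have h2 : ∏ i ∈ Finset.range (2 * d + 1), (X - C (sh d (2 * d - i))) =
      ∏ i ∈ Finset.range (2 * d + 1), (X - C (sh d i)) := by
    have := Finset.prod_range_reflect (fun i => (X - C (sh d i) : ℚ[X])) (2 * d + 1)
    rw [← this]
    refine Finset.prod_congr rfl fun i hi => ?_
    have : 2 * d + 1 - 1 - i = 2 * d - i := by omega
    rw [this]
  rw [h2, pow_succ, pow_mul]
  simp

/-- Polynomials separating the values, to any order. -/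
theorem exists_sep (d N : ℕ) : ∃ u : ℕ → ℚ[X],
    (∀ i ≤ 2 * d, (X - C (sh d i)) ^ N ∣ u i - 1) ∧
    ∀ i ≤ 2 * d, ∀ j ≤ 2 * d, j ≠ i → (X - C (sh d j)) ^ N ∣ u i := by
  have key : ∀ i, ∃ u : ℚ[X], i ≤ 2 * d → (X - C (sh d i)) ^ N ∣ u - 1 ∧
      ∀ j ≤ 2 * d, j ≠ i → (X - C (sh d j)) ^ N ∣ u := by
    intro i
    have hcop : IsCoprime (∏ j ∈ (Finset.range (2 * d + 1)).erase i, (X - C (sh d j)) ^ N)
        ((X - C (sh d i)) ^ N) := by
      refine IsCoprime.prod_left fun j hj => ?_
      refine IsCoprime.pow ?_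
      refine isCoprime_X_sub_C_of_isUnit_sub ?_
      rw [isUnit_iff_ne_zero, sub_ne_zero]
      exact fun h => (Finset.mem_erase.1 hj).1 (sh_inj h)
    obtain ⟨a, b, hab⟩ := hcop
    refine ⟨a * ∏ j ∈ (Finset.range (2 * d + 1)).erase i, (X - C (sh d j)) ^ N, fun _ => ⟨?_, ?_⟩⟩
    · refine ⟨-b, ?_⟩
      linear_combination hab
    · intro j hj hji
      exact (Finset.dvd_prod_of_mem _ (Finset.mem_erase.2 ⟨hji, Finset.mem_range.2 (by omega)⟩)).mul_left _
  choose u hu using key
  exact ⟨u, fun i hi => (hu i hi).1, fun i hi => (hu i hi).2⟩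

lemma gp_pow_dvd {d N : ℕ} {q : ℚ[X]} (h : ∀ i ≤ 2 * d, (X - C (sh d i)) ^ N ∣ q) :
    gp d ^ N ∣ q := by
  unfold gp
  rw [← Finset.prod_pow]
  refine Finset.prod_dvd_of_coprime ?_ ?_
  · intro i _ j _ hij
    refine IsCoprime.pow ?_
    refine isCoprime_X_sub_C_of_isUnit_sub ?_
    rw [isUnit_iff_ne_zero, sub_ne_zero]
    exact fun h => hij (sh_inj h)
  · intro i hi
    exact h i (by have := Finset.mem_range.1 hi; omega)

end crt

section family

variable {A : Type*} [Ring A] [Algebra ℚ A] {s : A →+ A}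

/-- **The family of idempotents.** -/
theorem exists_idem {d N : ℕ} {κ x y : A} (h1 : aeval κ (gp d) ^ N = aeval κ (gp d) ^ (N + 1) * x)
    (h2 : aeval κ (gp d) ^ N = y * aeval κ (gp d) ^ (N + 1)) :
    ∃ (e : A) (u : ℕ → ℚ[X]) (π : ℕ → A), (∃ r, e = r * aeval κ (gp d)) ∧
      (∀ i ≤ 2 * d, ∀ j ≤ 2 * d, (u i).eval (sh d j) = if i = j then 1 else 0) ∧
      (∀ i ≤ 2 * d, π i = aeval κ (u i) * (1 - e) + if i = d then e else 0) ∧
      (∀ i, 2 * d < i → π i = 0) ∧ (∀ i, π i * π i = π i) ∧ (∀ i j, i ≠ j → π i * π j = 0) ∧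
      ∑ i ∈ Finset.range (2 * d + 1), π i = 1 ∧
      (AntiInv s → s κ = -κ → ∀ i ≤ 2 * d, s (π i) = π (2 * d - i)) := by
  obtain ⟨a, ha⟩ : ∃ a, a = aeval κ (gp d) := ⟨_, rfl⟩
  rw [← ha] at h1 h2
  obtain ⟨M, hM⟩ : ∃ M, M = N + 1 := ⟨_, rfl⟩
  have h1' : a ^ M = a ^ (M + 1) * x := by
    rw [hM]
    calc a ^ (N + 1) = a * a ^ N := pow_succ' a N
      _ = a * (a ^ (N + 1) * x) := by rw [← h1]
      _ = a ^ (N + 1 + 1) * x := by rw [← mul_assoc, ← pow_succ']
  have h2' : a ^ M = y * a ^ (M + 1) := by
    rw [hM, pow_succ a (N + 1), ← mul_assoc, ← h2, pow_succ]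
  obtain ⟨c, hc⟩ : ∃ c, c = a ^ M := ⟨_, rfl⟩
  have hc1 : c = c * c * x ^ M := by
    rw [hc, ← pow_add]
    exact pow_stab h1' M
  have hc2 : c = y ^ M * (c * c) := by
    rw [hc, ← pow_add]
    exact pow_stab' h2' M
  obtain ⟨e, hee, hec, hce, he1, he2, hcomm⟩ := fitting hc1 hc2
  have hcκ : c = aeval κ (gp d ^ M) := by rw [hc, ha, map_pow]
  have hqc : ∀ q : ℚ[X], aeval κ q * c = c * aeval κ q := by
    intro q
    rw [hcκ, ← map_mul, ← map_mul, mul_comm]
  have hqe : ∀ q : ℚ[X], aeval κ q * e = e * aeval κ q := fun q => hcomm _ (hqc q)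
  have hqe' : ∀ q : ℚ[X], aeval κ q * (1 - e) = (1 - e) * aeval κ q := by
    intro q
    rw [mul_sub, sub_mul, hqe, mul_one, one_mul]
  have hc0 : ∀ q : ℚ[X], gp d ^ M ∣ q → aeval κ q * (1 - e) = 0 := by
    rintro q ⟨r, rfl⟩
    rw [mul_comm (gp d ^ M) r, map_mul, ← hcκ, mul_assoc, mul_sub, mul_one, hce, sub_self, mul_zero]
  have hee0 : (1 - e) * e = 0 := by rw [sub_mul, one_mul, hee, sub_self]
  have hee' : (1 - e) * (1 - e) = 1 - e := by
    rw [mul_sub, mul_one, hee0, sub_zero]
  have he0e : e * (1 - e) = 0 := by rw [mul_sub, mul_one, hee, sub_self]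
  obtain ⟨u, hu1, hu2⟩ := exists_sep d M
  have hev : ∀ i ≤ 2 * d, ∀ j ≤ 2 * d, (u i).eval (sh d j) = if i = j then 1 else 0 := by
    intro i hi j hj
    split_ifs with hij
    · subst hij
      obtain ⟨r, hr⟩ := hu1 i hi
      have := congrArg (eval (sh d i)) hr
      rw [eval_sub, eval_one, eval_mul, eval_pow, eval_sub, eval_X, eval_C, sub_self, hM,
        zero_pow (Nat.succ_ne_zero N), zero_mul] at this
      linarith
    · obtain ⟨r, hr⟩ := hu2 i hi j hj (Ne.symm hij)
      have := congrArg (eval (sh d j)) hr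
      rw [eval_mul, eval_pow, eval_sub, eval_X, eval_C, sub_self, hM,
        zero_pow (Nat.succ_ne_zero N), zero_mul] at this
      exact this
  -- the relations between the `p i`
  obtain ⟨p, hp⟩ : ∃ p : ℕ → A, p = fun i => aeval κ (u i) * (1 - e) := ⟨_, rfl⟩
  have hpp : ∀ i j, p i * p j = aeval κ (u i * u j) * (1 - e) := by
    intro i j
    rw [hp, map_mul]
    calc aeval κ (u i) * (1 - e) * (aeval κ (u j) * (1 - e))
        = aeval κ (u i) * ((1 - e) * aeval κ (u j)) * (1 - e) := by simp only [mul_assoc]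
      _ = aeval κ (u i) * (aeval κ (u j) * (1 - e)) * (1 - e) := by rw [hqe']
      _ = aeval κ (u i) * aeval κ (u j) * ((1 - e) * (1 - e)) := by simp only [mul_assoc]
      _ = _ := by rw [hee']
  have hpd : ∀ q q' : ℚ[X], gp d ^ M ∣ q - q' → aeval κ q * (1 - e) = aeval κ q' * (1 - e) := by
    intro q q' h
    rw [← sub_eq_zero, ← sub_mul, ← map_sub]
    exact hc0 _ h
  have hpi : ∀ i ≤ 2 * d, p i * p i = p i := by
    intro i hi
    rw [hpp, hp]
    refine hpd _ _ (gp_pow_dvd fun j hj => ?_)
    have e1 : u i * u i - u i = u i * (u i - 1) := by ring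
    rw [e1]
    by_cases hij : j = i
    · subst hij
      exact (hu1 j hj).mul_left _
    · exact (hu2 i hi j hj hij).mul_right _
  have hpij : ∀ i ≤ 2 * d, ∀ j ≤ 2 * d, i ≠ j → p i * p j = 0 := by
    intro i hi j hj hij
    rw [hpp]
    refine hc0 _ (gp_pow_dvd fun l hl => ?_)
    by_cases hli : l = i
    · subst hli
      exact (hu2 j hj l hl hij).mul_left _
    · exact (hu2 i hi l hl hli).mul_right _
  have hps : ∑ i ∈ Finset.range (2 * d + 1), p i = 1 - e := by
    rw [hp, ← Finset.sum_mul, ← map_sum]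
    have := hpd (∑ i ∈ Finset.range (2 * d + 1), u i) 1 (gp_pow_dvd fun j hj => ?_)
    · rw [this, map_one, one_mul]
    · have hj' : j ∈ Finset.range (2 * d + 1) := Finset.mem_range.2 (by omega)
      rw [← Finset.add_sum_erase _ _ hj']
      have e1 : u j + ∑ x ∈ (Finset.range (2 * d + 1)).erase j, u x - 1 =
          (u j - 1) + ∑ x ∈ (Finset.range (2 * d + 1)).erase j, u x := by ring
      rw [e1]
      refine dvd_add (hu1 j hj) (Finset.dvd_sum fun i hi => ?_)
      have := Finset.mem_erase.1 hi
      exact hu2 i (by have := Finset.mem_range.1 this.2; omega) j hj (Ne.symm this.1)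
  have hpe : ∀ i, p i * e = 0 := by
    intro i
    rw [hp]
    change aeval κ (u i) * (1 - e) * e = 0
    rw [mul_assoc, hee0, mul_zero]
  have hep : ∀ i, e * p i = 0 := by
    intro i
    rw [hp]
    change e * (aeval κ (u i) * (1 - e)) = 0
    rw [← mul_assoc, ← hqe, mul_assoc, he0e, mul_zero]
  obtain ⟨π, hπ, hπ0⟩ : ∃ π : ℕ → A, (∀ i ≤ 2 * d, π i = p i + if i = d then e else 0) ∧
      ∀ i, 2 * d < i → π i = 0 := by
    refine ⟨fun i => if i ≤ 2 * d then p i + (if i = d then e else 0) else 0, ?_, ?_⟩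
    · intro i hi
      exact if_pos hi
    · intro i hi
      exact if_neg (by omega)
  refine ⟨e, u, π, ⟨y ^ M * a ^ N, ?_⟩, hev, fun i hi => by rw [hπ i hi, hp], hπ0, ?_, ?_, ?_, ?_⟩
  · rw [he2, hc, hM, ← ha, mul_assoc, ← pow_succ]
  · intro i
    rcases le_or_gt i (2 * d) with hi | hi
    · rw [hπ i hi, mul_add, add_mul, add_mul, hpi i hi]
      split_ifs
      · rw [hep, hpe, hee]
        abel
      · rw [zero_mul, mul_zero, mul_zero]
        abel
    · rw [hπ0 i hi, mul_zero]
  · intro i j hij
    rcases le_or_gt i (2 * d) with hi | hi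
    · rcases le_or_gt j (2 * d) with hj | hj
      · rw [hπ i hi, hπ j hj, mul_add, add_mul, add_mul, hpij i hi j hj hij]
        split_ifs with hid hjd
        · exact absurd (hid.trans hjd.symm) hij
        · rw [hep]
          simp
        · rw [hpe]
          simp
        · simp
      · rw [hπ0 j hj, mul_zero]
    · rw [hπ0 i hi, zero_mul]
  · have e1 : ∑ i ∈ Finset.range (2 * d + 1), π i =
        ∑ i ∈ Finset.range (2 * d + 1), (p i + if i = d then e else 0) := by
      refine Finset.sum_congr rfl fun i hi => hπ i ?_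
      have := Finset.mem_range.1 hi
      omega
    rw [e1, Finset.sum_add_distrib, hps, Finset.sum_ite_eq' (Finset.range (2 * d + 1)) d,
      if_pos (Finset.mem_range.2 (by omega))]
    abel
  · intro hs hκ i hi
    have hsq : ∀ q : ℚ[X], s (aeval κ q) = aeval κ (q.comp (-X)) := by
      intro q
      rw [hs.aeval, hκ, aeval_comp, map_neg, aeval_X]
    have hsc : s c = (-1) ^ M * c := by
      rw [hcκ, hsq, pow_comp, gp_comp, neg_pow, map_mul, map_pow, map_neg, map_one]
    -- the idempotent is invariant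
    have hse : s e = e := by
      have f1 : s e * e = e := by
        have : s e * c = c := by
          have h := congrArg s hce
          rw [hs.mul, hsc] at h
          have h5 : ((-1 : A) ^ M) * ((-1) ^ M) = 1 := by
            rw [← pow_add, ← two_mul, pow_mul]
            simp
          calc s e * c = s e * (((-1) ^ M * (-1) ^ M) * c) := by rw [h5, one_mul]
            _ = (-1) ^ M * (s e * ((-1) ^ M * c)) := by
                have h6 : Commute ((-1 : A) ^ M) (s e) :=
                  ((Commute.neg_one_left (s e)).pow_left M)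
                rw [← mul_assoc, ← mul_assoc, ← mul_assoc, h6.eq]
                simp only [mul_assoc]
            _ = (-1) ^ M * ((-1) ^ M * c) := by rw [h]
            _ = c := by rw [← mul_assoc, h5, one_mul]
        calc s e * e = s e * (c * x ^ M) := by rw [← he1]
          _ = c * x ^ M := by rw [← mul_assoc, this]
          _ = e := he1.symm
      have f2 : s e * e = s e := by
        have := congrArg s f1
        rwa [hs.mul, hs.inv] at this
      rw [← f2, f1]
    have hs1e : s (1 - e) = 1 - e := by rw [map_sub, hs.one, hse]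
    have hi2 : 2 * d - i ≤ 2 * d := by omega
    rw [hπ i hi, hπ _ hi2, map_add, hp]
    congr 1
    · change s (aeval κ (u i) * (1 - e)) = aeval κ (u (2 * d - i)) * (1 - e)
      rw [hs.mul, hs1e, hsq, ← hqe']
      refine hpd _ _ (gp_pow_dvd fun j hj => ?_)
      have hj2 : 2 * d - j ≤ 2 * d := by omega
      -- the composition with `-X`
      have hX : ∀ j ≤ 2 * d, ((X - C (sh d (2 * d - j))) ^ M).comp (-X) =
          (-1) ^ M * (X - C (sh d j)) ^ M := by
        intro j hj
        rw [pow_comp, sh_dual hj, ← mul_pow]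
        congr 1
        simp
        ring
      have hdvd : ∀ q : ℚ[X], (X - C (sh d (2 * d - j))) ^ M ∣ q →
          (X - C (sh d j)) ^ M ∣ q.comp (-X) := by
        rintro q ⟨r, rfl⟩
        rw [mul_comp, hX j hj]
        exact ((dvd_mul_left _ _)).mul_right _
      by_cases hij : j = 2 * d - i
      · have hji : 2 * d - j = i := by omega
        have g1 := hdvd (u i - 1) (by rw [hji]; exact hu1 i hi)
        have g2 := hu1 (2 * d - i) hi2
        rw [← hij] at g2 ⊢
        have e1 : (u i).comp (-X) - u j = (u i - 1).comp (-X) - (u j - 1) := by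
          rw [sub_comp, one_comp]
          ring
        rw [e1]
        exact dvd_sub g1 g2
      · have g1 := hdvd (u i) (hu2 i hi _ hj2 (by omega))
        exact dvd_sub g1 (hu2 _ hi2 j hj hij)
    · by_cases hid : i = d
      · rw [if_pos hid, if_pos (by omega), hse]
      · rw [if_neg hid, if_neg (by omega), map_zero]

end family

end Pool.Agent.Zk50.SE
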